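import Mathlib

/-!
# MP_174dab: the chord set of the sine sum `g_n`
-/

namespace Pool.Agent.Results.MP_174dab_an.ChordSet

open Real Set

/-- The sine sum. -/
noncomputable def g (n : ℕ) (x : ℝ) : ℝ := ∑ k ∈ Finset.Icc 1 n, sin (2 * π * k * x)

/-- The chord set of a function on `[0, 1]`. -/
def H (f : ℝ → ℝ) : Set ℝ := {l | l ∈ Icc (0 : ℝ) 1 ∧ ∃ x ∈ Icc l 1, f (x - l) = f x}

/-- The union of the intervals `(k/(n+1), k/n)`, `1 ≤ k ≤ n`. -/
def V (n : ℕ) : Set ℝ := ⋃ k ∈ Finset.Icc 1 n, Ioo ((k : ℝ) / (n + 1)) ((k : ℝ) / n)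

lemma closed (n : ℕ) (x : ℝ) :
    2 * sin (π * x) * g n x = cos (π * x) - cos ((2 * n + 1) * (π * x)) := by
  induction n with
  | zero => simp [g]
  | succ n ih =>
    have hs : g (n + 1) x = g n x + sin (2 * π * ((n + 1 : ℕ) : ℝ) * x) := by
      unfold g
      rw [Finset.sum_Icc_succ_top (by omega)]
    rw [hs, mul_add, ih]
    have h1 : 2 * π * ((n + 1 : ℕ) : ℝ) * x = (2 * n + 1) * (π * x) + π * x := by
      push_cast; ring
    have h2 : (2 * ((n + 1 : ℕ) : ℝ) + 1) * (π * x) = (2 * n + 1) * (π * x) + π * x + π * x := by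
      push_cast; ring
    rw [h1, h2]
    set A := (2 * (n : ℝ) + 1) * (π * x)
    set B := π * x
    rw [cos_add (A + B) B, cos_add A B, sin_add A B]
    have := sin_sq_add_cos_sq B
    linear_combination (cos A) * this

lemma g_zero (n : ℕ) : g n 0 = 0 := by simp [g]

lemma g_one (n : ℕ) : g n 1 = 0 := by
  unfold g
  apply Finset.sum_eq_zero
  intro k _
  have : 2 * π * (k : ℝ) * 1 = ((2 * k : ℕ) : ℝ) * π := by push_cast; ring
  rw [this, sin_nat_mul_pi]

lemma g_sub (n : ℕ) (x : ℝ) : g n (1 - x) = -g n x := by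
  unfold g
  rw [← Finset.sum_neg_distrib]
  apply Finset.sum_congr rfl
  intro k _
  have : 2 * π * (k : ℝ) * (1 - x) = -(2 * π * k * x) + (k : ℕ) * (2 * π) := by ring
  rw [this, sin_add_nat_mul_two_pi, sin_neg]

lemma g_cont (n : ℕ) : Continuous (g n) := by
  unfold g
  fun_prop

/-- The product which decides. -/
noncomputable def G (n : ℕ) (l : ℝ) : ℝ := sin (n * (π * l)) * sin ((n + 1) * (π * l))

lemma g_eq (n : ℕ) (l : ℝ) : sin (π * l) * g n l = G n l := by
  have h := closed n l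
  have h1 : cos (π * l) - cos ((2 * n + 1) * (π * l)) = 2 * G n l := by
    have e1 : π * l = (n + 1) * (π * l) - n * (π * l) := by ring
    have e2 : (2 * n + 1) * (π * l) = (n + 1) * (π * l) + n * (π * l) := by ring
    unfold G
    generalize hA : (n + 1 : ℝ) * (π * l) = A at *
    generalize hB : (n : ℝ) * (π * l) = B at *
    rw [e2, e1, cos_add, cos_sub]
    ring
  linarith

lemma G_sub (n : ℕ) (l : ℝ) : G n (1 - l) = -G n l := by
  unfold G
  have e1 : (n : ℝ) * (π * (1 - l)) = n * π - n * (π * l) := by ring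
  have e2 : ((n : ℝ) + 1) * (π * (1 - l)) = (n * π + π) - (n + 1) * (π * l) := by ring
  rw [e1, e2, sin_sub, sin_sub, sin_nat_mul_pi, sin_add_pi, sin_nat_mul_pi, cos_add_pi]
  have : cos (n * π) ^ 2 = 1 := by
    have := sin_sq_add_cos_sq (n * π)
    rw [sin_nat_mul_pi] at this
    linarith
  linear_combination (-(sin (n * (π * l)) * sin ((n + 1) * (π * l)))) * this

/-- The main inequality. -/
lemma main_ineq (n : ℕ) {l x : ℝ} (hl0 : 0 < l) (hx : l < x) (hx1 : x < 1) (hG : G n l < 0) :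
    g n x < g n (x - l) := by
  have hπ := pi_pos
  have ha : 0 < sin (π * x) := sin_pos_of_pos_of_lt_pi (by nlinarith) (by nlinarith)
  have hb : 0 < sin (π * (x - l)) := sin_pos_of_pos_of_lt_pi (by nlinarith) (by nlinarith)
  have hl : 0 < sin (π * l) := sin_pos_of_pos_of_lt_pi (by nlinarith) (by nlinarith)
  have c1 := closed n x
  have c2 := closed n (x - l)
  set y : ℝ := π * x - π * l / 2 with hy
  set h : ℝ := π * l / 2 with hh
  have ex : π * x = y + h := by rw [hy, hh]; ring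
  have ex' : π * (x - l) = y - h := by rw [hy, hh]; ring
  have el : π * l = 2 * h := by rw [hh]; ring
  rw [ex] at c1 ha
  rw [ex'] at c2 hb
  rw [el] at hl
  set N : ℝ := 2 * n + 1 with hN
  -- the identity
  have hS : 2 * sin (y + h) * sin (y - h) * (g n (x - l) - g n x) =
      sin (2 * h) - (sin (N * h + h) * cos (N * y - y) - sin (N * h - h) * cos (N * y + y)) := by
    have e1 : cos (N * (y + h)) = cos (N * y) * cos (N * h) - sin (N * y) * sin (N * h) := by
      rw [mul_add, cos_add]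
    have e2 : cos (N * (y - h)) = cos (N * y) * cos (N * h) + sin (N * y) * sin (N * h) := by
      rw [mul_sub, cos_sub]
    have e3 : 2 * sin (y + h) * sin (y - h) * (g n (x - l) - g n x) =
        sin (y + h) * (2 * sin (y - h) * g n (x - l)) -
          sin (y - h) * (2 * sin (y + h) * g n x) := by ring
    rw [e3, c1, c2, e1, e2, sin_add (N * h) h, cos_sub (N * y) y, sin_sub (N * h) h,
      cos_add (N * y) y, sin_two_mul]
    rw [sin_add y h, sin_sub y h, cos_add y h, cos_sub y h]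
    have hy2 := sin_sq_add_cos_sq y
    linear_combination (2 * sin h * cos h) * hy2
  have hP : G n l = sin (N * h - h) * sin (N * h + h) := by
    unfold G
    rw [el, hN]
    congr 2 <;> ring
  set P := sin (N * h + h) with hPd
  set Q := sin (N * h - h) with hQd
  rw [hP] at hG
  have hcos : cos (2 * y) < cos (2 * h) := by
    have : cos (2 * y) - cos (2 * h) = -2 * (sin (y + h) * sin (y - h)) := by
      rw [sin_add y h, sin_sub y h, cos_two_mul y, cos_two_mul h]
      have h1 := sin_sq_add_cos_sq y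
      have h2 := sin_sq_add_cos_sq h
      linear_combination (2 * cos h ^ 2) * h1 - (2 * cos y ^ 2) * h2
    have h3 : 0 < sin (y + h) * sin (y - h) := mul_pos ha hb
    linarith
  have hsq1 : (P * cos (N * y - y) - Q * cos (N * y + y)) ^ 2 ≤
      P ^ 2 + Q ^ 2 - 2 * (P * Q) * cos (2 * y) := by
    have hc : cos (2 * y) = cos (N * y - y) * cos (N * y + y) + sin (N * y - y) * sin (N * y + y) := by
      rw [← cos_sub, ← cos_neg]
      congr 1
      ring
    have h1 := sin_sq_add_cos_sq (N * y - y)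
    have h2 := sin_sq_add_cos_sq (N * y + y)
    rw [hc]
    nlinarith [sq_nonneg (P * sin (N * y - y) - Q * sin (N * y + y))]
  have hsq2 : sin (2 * h) ^ 2 = P ^ 2 + Q ^ 2 - 2 * (P * Q) * cos (2 * h) := by
    have e : 2 * h = (N * h + h) - (N * h - h) := by ring
    rw [e, sin_sub (N * h + h) (N * h - h), cos_sub (N * h + h) (N * h - h), hPd, hQd]
    have h1 := sin_sq_add_cos_sq (N * h + h)
    have h2 := sin_sq_add_cos_sq (N * h - h)
    generalize sin (N * h + h) = s1 at *
    generalize cos (N * h + h) = k1 at *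
    generalize sin (N * h - h) = s2 at *
    generalize cos (N * h - h) = k2 at *
    have e1 : k1 ^ 2 = 1 - s1 ^ 2 := by linarith
    have e2 : k2 ^ 2 = 1 - s2 ^ 2 := by linarith
    linear_combination (s1 ^ 2) * e2 + (s2 ^ 2) * e1
  have hlt : (P * cos (N * y - y) - Q * cos (N * y + y)) ^ 2 < sin (2 * h) ^ 2 := by
    have : (P * Q) * cos (2 * h) < (P * Q) * cos (2 * y) := by
      have hPQ : P * Q < 0 := by linarith [mul_comm P Q]
      exact mul_lt_mul_of_neg_left hcos hPQ
    linarith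
  have hfin := abs_lt_of_sq_lt_sq hlt hl.le
  have hfin' := (abs_lt.1 hfin).2
  have hpos : 0 < 2 * sin (y + h) * sin (y - h) * (g n (x - l) - g n x) := by
    rw [hS]; linarith
  have hss : 0 < 2 * sin (y + h) * sin (y - h) := by positivity
  have := (pos_iff_pos_of_mul_pos hpos).1 hss
  linarith

lemma no_chord (n : ℕ) {l x : ℝ} (hl0 : 0 < l) (hl1 : l < 1) (hx : x ∈ Icc l 1)
    (hG : G n l < 0) : g n x < g n (x - l) := by
  have hπ := pi_pos
  have hl : 0 < sin (π * l) := sin_pos_of_pos_of_lt_pi (by nlinarith) (by nlinarith)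
  have hgl : g n l < 0 := by
    have := g_eq n l
    by_contra hcon
    push Not at hcon
    nlinarith [mul_nonneg hl.le hcon]
  rcases hx.1.lt_or_eq with h | h
  · rcases hx.2.lt_or_eq with h1 | h1
    · exact main_ineq n hl0 h h1 hG
    · rw [h1, g_one, g_sub]
      linarith
  · rw [← h, sub_self, g_zero]
    exact hgl

lemma G_neg_of_mem {n : ℕ} (hn : 1 ≤ n) {l : ℝ} (h : l ∈ V n) : G n l < 0 := by
  unfold V at h
  simp only [mem_iUnion, Finset.mem_Icc, exists_prop] at h
  obtain ⟨k, ⟨hk1, hkn⟩, h1, h2⟩ := h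
  have hn0 : (0 : ℝ) < n := by exact_mod_cast hn
  have hkn' : (k : ℝ) ≤ n := by exact_mod_cast hkn
  have hk1' : (1 : ℝ) ≤ k := by exact_mod_cast hk1
  rw [div_lt_iff₀ (by positivity)] at h1
  rw [lt_div_iff₀ hn0] at h2
  obtain ⟨j, rfl⟩ := Nat.exists_eq_add_of_le' hk1
  push_cast at *
  have hπ := pi_pos
  have hl0 : 0 < l := by
    by_contra hcon
    push Not at hcon
    nlinarith
  have hl1 : l ≤ 1 := by
    by_contra hcon
    push Not at hcon
    nlinarith
  have s1 : sin (n * (π * l)) = (-1) ^ j * sin ((n * l - j) * π) := by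
    rw [← sin_add_nat_mul_pi]
    congr 1; ring
  have s2 : sin ((n + 1) * (π * l)) = (-1) ^ (j + 1) * sin (((n + 1) * l - (j + 1)) * π) := by
    rw [← sin_add_nat_mul_pi]
    congr 1; push_cast; ring
  have p1 : 0 < sin ((n * l - j) * π) := by
    apply sin_pos_of_pos_of_lt_pi
    · have : 0 < n * l - j := by nlinarith
      positivity
    · have : n * l - j < 1 := by linarith
      nlinarith
  have p2 : 0 < sin (((n + 1) * l - (j + 1)) * π) := by
    apply sin_pos_of_pos_of_lt_pi
    · have : 0 < (n + 1) * l - (j + 1) := by linarith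
      positivity
    · have : (n + 1) * l - (j + 1) < 1 := by nlinarith
      nlinarith
  unfold G
  rw [s1, s2]
  have : ((-1 : ℝ)) ^ j * (-1) ^ j = 1 := by
    rw [← mul_pow]; simp
  have e : (-1 : ℝ) ^ j * sin ((n * l - j) * π) *
      ((-1) ^ (j + 1) * sin (((n + 1) * l - (j + 1)) * π)) =
      -(sin ((n * l - j) * π) * sin (((n + 1) * l - (j + 1)) * π)) := by
    rw [pow_succ]
    linear_combination (-(sin ((n * l - j) * π) * sin (((n + 1) * l - (j + 1)) * π))) * this
  rw [e]
  have := mul_pos p1 p2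
  linarith

lemma G_nonneg_of_notMem {n : ℕ} (hn : 1 ≤ n) {l : ℝ} (hl0 : 0 < l) (hl1 : l < 1)
    (h : l ∉ V n) : 0 ≤ G n l := by
  have hn0 : (0 : ℝ) < n := by exact_mod_cast hn
  have hπ := pi_pos
  set j : ℕ := ⌊(n : ℝ) * l⌋₊ with hj
  have hnl : 0 ≤ (n : ℝ) * l := by positivity
  have j1 : (j : ℝ) ≤ n * l := Nat.floor_le hnl
  have j2 : (n : ℝ) * l < j + 1 := Nat.lt_floor_add_one _
  have hjn : j + 1 ≤ n := by
    have : (j : ℝ) < n := by nlinarith
    exact_mod_cast this
  have hle : (n + 1 : ℝ) * l ≤ j + 1 := by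
    by_contra hcon
    push Not at hcon
    apply h
    unfold V
    simp only [mem_iUnion, Finset.mem_Icc, exists_prop]
    refine ⟨j + 1, ⟨by omega, hjn⟩, ?_, ?_⟩
    · rw [div_lt_iff₀ (by positivity)]
      push_cast
      linarith
    · rw [lt_div_iff₀ hn0]
      push_cast
      linarith
  have s1 : sin (n * (π * l)) = (-1) ^ j * sin ((n * l - j) * π) := by
    rw [← sin_add_nat_mul_pi]
    congr 1; ring
  have s2 : sin ((n + 1) * (π * l)) = (-1) ^ j * sin (((n + 1) * l - j) * π) := by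
    rw [← sin_add_nat_mul_pi]
    congr 1; ring
  have p1 : 0 ≤ sin ((n * l - j) * π) := by
    apply sin_nonneg_of_nonneg_of_le_pi
    · have : 0 ≤ n * l - j := by linarith
      positivity
    · nlinarith
  have p2 : 0 ≤ sin (((n + 1) * l - j) * π) := by
    apply sin_nonneg_of_nonneg_of_le_pi
    · have : 0 ≤ (n + 1) * l - j := by nlinarith
      positivity
    · nlinarith
  unfold G
  rw [s1, s2]
  have : ((-1 : ℝ)) ^ j * (-1) ^ j = 1 := by
    rw [← mul_pow]; simp
  have e : (-1 : ℝ) ^ j * sin ((n * l - j) * π) * ((-1) ^ j * sin (((n + 1) * l - j) * π)) =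
      sin ((n * l - j) * π) * sin (((n + 1) * l - j) * π) := by
    linear_combination (sin ((n * l - j) * π) * sin (((n + 1) * l - j) * π)) * this
  rw [e]
  exact mul_nonneg p1 p2

lemma V_sub (n : ℕ) (hn : 1 ≤ n) : V n ⊆ Ioo 0 1 := by
  intro l h
  unfold V at h
  simp only [mem_iUnion, Finset.mem_Icc, exists_prop] at h
  obtain ⟨k, ⟨hk1, hkn⟩, h1, h2⟩ := h
  have hn0 : (0 : ℝ) < n := by exact_mod_cast hn
  have hkn' : (k : ℝ) ≤ n := by exact_mod_cast hkn
  constructor
  · refine lt_of_le_of_lt ?_ h1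
    positivity
  · refine lt_of_lt_of_le h2 ?_
    rw [div_le_one hn0]
    exact hkn'

lemma exists_chord {n : ℕ} (hn : 1 ≤ n) {l : ℝ} (hl : l ∈ Icc (0 : ℝ) 1) (h : l ∉ V n) :
    ∃ x ∈ Icc l 1, g n (x - l) = g n x := by
  rcases hl.1.lt_or_eq with h0 | h0
  swap
  · exact ⟨1, ⟨hl.2, le_rfl⟩, by rw [← h0, sub_zero]⟩
  rcases hl.2.lt_or_eq with h1 | h1
  swap
  · exact ⟨1, ⟨hl.2, le_rfl⟩, by rw [h1, sub_self, g_zero, g_one]⟩
  have hπ := pi_pos
  have hs : 0 < sin (π * l) := sin_pos_of_pos_of_lt_pi (by nlinarith) (by nlinarith)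
  rcases (G_nonneg_of_notMem hn h0 h1 h).lt_or_eq with hG | hG
  swap
  · refine ⟨l, ⟨le_rfl, hl.2⟩, ?_⟩
    rw [sub_self, g_zero]
    have := g_eq n l
    rw [← hG] at this
    exact ((mul_eq_zero.1 this).resolve_left hs.ne').symm
  have hgl : 0 < g n l := by
    have := g_eq n l
    by_contra hcon
    push Not at hcon
    nlinarith [mul_nonpos_of_nonneg_of_nonpos hs.le hcon]
  by_contra hno
  push Not at hno
  have hDcont : ContinuousOn (fun x => g n x - g n (x - l)) (Icc l 1) :=
    ((g_cont n).sub ((g_cont n).comp (continuous_id.sub continuous_const))).continuousOn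
  have hD : ∀ x ∈ Icc l 1, 0 < g n x - g n (x - l) := by
    intro x hx
    by_contra hcon
    push Not at hcon
    have hend : 0 ≤ g n 1 - g n (1 - l) := by
      rw [g_one, g_sub]; linarith
    have hsub : Icc x 1 ⊆ Icc l 1 := Icc_subset_Icc hx.1 le_rfl
    obtain ⟨c, hc, hc0⟩ := intermediate_value_Icc hx.2 (hDcont.mono hsub) ⟨hcon, hend⟩
    exact hno c (hsub hc) (by simp only at hc0; linarith)
  obtain ⟨x₀, hx₀, hmax⟩ := isCompact_Icc.exists_isMaxOn (s := Icc (0 : ℝ) 1)
    (nonempty_Icc.2 zero_le_one) (g_cont n).continuousOn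
  rcases le_total x₀ (1 - l) with hle | hle
  · have hx : x₀ + l ∈ Icc l 1 := ⟨by linarith [hx₀.1], by linarith⟩
    have h1' := hD _ hx
    rw [add_sub_cancel_right] at h1'
    have h2' := hmax (show x₀ + l ∈ Icc (0 : ℝ) 1 from ⟨by linarith [hx₀.1], hx.2⟩)
    simp only [mem_ofPred_eq] at h2'
    linarith
  · have hG' : G n (1 - l) < 0 := by rw [G_sub]; linarith
    have h1' := no_chord n (l := 1 - l) (x := x₀) (by linarith) (by linarith) ⟨hle, hx₀.2⟩ hG'
    have h2' := hmax (show x₀ - (1 - l) ∈ Icc (0 : ℝ) 1 from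
      ⟨by linarith, by linarith [hx₀.2]⟩)
    simp only [mem_ofPred_eq] at h2'
    linarith

/-- **MP_174dab, Q1 (affirmative).**  For every `n ≥ 1` the chord set of `g_n` is exactly
`[0, 1]` minus the union of the intervals `(k/(n+1), k/n)`, `1 ≤ k ≤ n`. -/
theorem result : ∀ n : ℕ, 1 ≤ n →
    H (g n) = Icc 0 1 \ V n ∧ Ici (0 : ℝ) \ H (g n) = V n ∪ Ioi 1 := by
  intro n hn
  have key : H (g n) = Icc 0 1 \ V n := by
    ext l
    constructor
    · rintro ⟨hl, x, hx, hxe⟩
      refine ⟨hl, fun hV => ?_⟩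
      have := no_chord n (V_sub n hn hV).1 (V_sub n hn hV).2 hx (G_neg_of_mem hn hV)
      linarith
    · rintro ⟨hl, hV⟩
      exact ⟨hl, exists_chord hn hl hV⟩
  refine ⟨key, ?_⟩
  rw [key]
  ext l
  constructor
  · rintro ⟨h0, h1⟩
    rcases le_or_gt l 1 with h | h
    · left
      by_contra hV
      exact h1 ⟨⟨h0, h⟩, hV⟩
    · exact Or.inr h
  · rintro (h | h)
    · exact ⟨(V_sub n hn h).1.le, fun h' => h'.2 h⟩
    · exact ⟨(zero_le_one.trans h.le : (0 : ℝ) ≤ l), fun h' => absurd h'.1.2 (not_le.2 h)⟩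

end Pool.Agent.Results.MP_174dab_an.ChordSet
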